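import Pool.Agent.Helper47.PW.APXb

set_option autoImplicit false

namespace Pool.Agent.Helper95.PW

open MeasureTheory Filter

/-- interpolation -/
lemma apx_interp {n : ℕ} {v : Cf n → ℝ} (hv : apx_CS v) (k : Fin n) (i : Fin 3) (t : ℝ)
    (ht : 0 < t) : ∫ x, dv k i v x ^ 2 ≤
      (1 / t) * (∫ x, v x ^ 2) + t * ∫ x, dv k i (dv k i v) x ^ 2 := by
  have m0 := hv.mem
  have m1 := (hv.dv k i).mem
  have m2 := ((hv.dv k i).dv k i).mem
  have h1 : ∫ x, dv k i v x * dv k i v x = -∫ x, dv k i (dv k i v) x * v x := by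
    have h := integral_mul_fderiv_eq_neg_fderiv_mul_of_integrable (μ := (volume : Measure (Cf n)))
      (f := dv k i v) (g := v) (v := Pi.single k (Pi.single i 1))
      (m2.integrable_mul m0) (m1.integrable_mul m1) (m1.integrable_mul m0)
      (fun x _ => (hv.dv k i).1.differentiable (by simp) x)
      (fun x _ => hv.1.differentiable (by simp) x)
    exact h
  have h2 : ∫ x, dv k i v x ^ 2 = ∫ x, -(dv k i (dv k i v) x * v x) := by
    rw [integral_neg, ← h1]
    apply integral_congr_ae
    filter_upwards with x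
    ring
  rw [h2, ← integral_const_mul, ← integral_const_mul, ← integral_add
    (m0.integrable_sq.const_mul _) (m2.integrable_sq.const_mul _)]
  apply integral_mono (m2.integrable_mul m0).neg
    ((m0.integrable_sq.const_mul _).add (m2.integrable_sq.const_mul _))
  intro x
  change -(dv k i (dv k i v) x * v x) ≤ 1 / t * v x ^ 2 + t * dv k i (dv k i v) x ^ 2
  set a := v x
  set b := dv k i (dv k i v) x
  have h3 : 0 ≤ (1 / t) * (a + t * b) ^ 2 := by positivity
  have h4 : (1 / t) * (a + t * b) ^ 2 = (1 / t) * a ^ 2 + 2 * (b * a) + t * b ^ 2 := by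
    field_simp
    ring
  have h5 : 0 ≤ (1 / t) * a ^ 2 := by positivity
  have h6 : 0 ≤ t * b ^ 2 := by positivity
  rw [h4] at h3
  linarith

lemma apx_one_le {n : ℕ} (v : Wf n) (s : Fin n → Fin 2) : ∫ x, v s x ^ 2 ≤ sq v := by
  unfold sq
  exact Finset.single_le_sum (f := fun s => ∫ x, v s x ^ 2)
    (fun s _ => integral_nonneg fun x => sq_nonneg _) (Finset.mem_univ s)

lemma apx_sq_nonneg {n : ℕ} (v : Wf n) : 0 ≤ sq v := by
  unfold sq
  exact Finset.sum_nonneg fun s _ => integral_nonneg fun x => sq_nonneg _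

lemma apx_tri {n : ℕ} (a b c : Wf n) (ha : ∀ s, MemLp (a s) 2) (hb : ∀ s, MemLp (b s) 2)
    (hc : ∀ s, c s =ᵐ[volume] fun x => a s x + b s x) : sq c ≤ 2 * sq a + 2 * sq b := by
  unfold sq
  rw [Finset.mul_sum, Finset.mul_sum, ← Finset.sum_add_distrib]
  apply Finset.sum_le_sum
  intro s _
  rw [← integral_const_mul, ← integral_const_mul, ← integral_add
    ((ha s).integrable_sq.const_mul 2) ((hb s).integrable_sq.const_mul 2)]
  apply integral_mono_of_nonneg (Eventually.of_forall fun x => sq_nonneg _)
    (((ha s).integrable_sq.const_mul 2).add ((hb s).integrable_sq.const_mul 2))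
  filter_upwards [hc s] with x hx
  rw [hx]
  simp only [Pi.add_apply]
  nlinarith [sq_nonneg (a s x - b s x)]

lemma apx_one_tendsto {n : ℕ} (v : ℕ → Wf n) (h : Tendsto (fun j => sq (v j)) atTop (nhds 0))
    (s : Fin n → Fin 2) : Tendsto (fun j => ∫ x, v j s x ^ 2) atTop (nhds 0) :=
  squeeze_zero (fun j => integral_nonneg fun x => sq_nonneg _) (fun j => apx_one_le (v j) s) h

lemma apx_U_sub {n : ℕ} (u φ : Wf n)
    (hφ : ∀ (π : Equiv.Perm (Fin n)) (s : Fin n → Fin 2), ∀ᵐ x : Cf n,
      φ (fun i => s (π i)) (fun i => x (π i)) = ((Equiv.Perm.sign π : ℤ) : ℝ) * φ s x)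
    (s : Fin n → Fin 2) : (fun x => apx_U u s x - φ s x) =ᵐ[volume]
      apx_A (fun _ s x => u s x - φ s x) s := by
  have h1 : ∀ᵐ x : Cf n, ∀ π : Equiv.Perm (Fin n),
      φ (fun i => s (π i)) (fun i => x (π i)) = ((Equiv.Perm.sign π : ℤ) : ℝ) * φ s x :=
    ae_all_iff.mpr fun π => hφ π s
  filter_upwards [h1] with x hx
  unfold apx_U apx_A
  have e1 : ∀ π : Equiv.Perm (Fin n), φ (fun i => s (π i)) (apx_L π x) =
      ((Equiv.Perm.sign π : ℤ) : ℝ) * φ s x := hx
  simp only [e1, mul_sub, Finset.sum_sub_distrib]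
  congr 1
  have e2 : ∀ π : Equiv.Perm (Fin n), ((Equiv.Perm.sign π : ℤ) : ℝ) *
      (((Equiv.Perm.sign π : ℤ) : ℝ) * φ s x) = φ s x := by
    intro π
    have := apx_sign π
    rw [← mul_assoc, ← pow_two, this, one_mul]
  simp only [e2]
  rw [Finset.sum_const, Finset.card_univ, Fintype.card_perm, Fintype.card_fin, nsmul_eq_mul,
    ← mul_assoc, inv_mul_cancel₀ (by exact_mod_cast n.factorial_ne_zero), one_mul]

lemma apx_dd_le {n : ℕ} (v : Wf n) (k : Fin n) (i : Fin 3) (l : Fin n) (m : Fin 3) :
    sq (fun s => dv k i (dv l m (v s))) ≤ dd v := by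
  unfold dd
  calc sq (fun s => dv k i (dv l m (v s)))
      ≤ ∑ m, sq (fun s => dv k i (dv l m (v s))) :=
        Finset.single_le_sum (f := fun m => sq (fun s => dv k i (dv l m (v s))))
          (fun m _ => apx_sq_nonneg _) (Finset.mem_univ m)
    _ ≤ ∑ l, ∑ m, sq (fun s => dv k i (dv l m (v s))) :=
        Finset.single_le_sum (f := fun l => ∑ m, sq (fun s => dv k i (dv l m (v s))))
          (fun l _ => Finset.sum_nonneg fun m _ => apx_sq_nonneg _) (Finset.mem_univ l)
    _ ≤ ∑ i, ∑ l, ∑ m, sq (fun s => dv k i (dv l m (v s))) :=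
        Finset.single_le_sum (f := fun i => ∑ l, ∑ m, sq (fun s => dv k i (dv l m (v s))))
          (fun i _ => Finset.sum_nonneg fun l _ => Finset.sum_nonneg fun m _ => apx_sq_nonneg _)
          (Finset.mem_univ i)
    _ ≤ _ := Finset.single_le_sum
          (f := fun k => ∑ i, ∑ l, ∑ m, sq (fun s => dv k i (dv l m (v s))))
          (fun k _ => Finset.sum_nonneg fun i _ => Finset.sum_nonneg fun l _ =>
            Finset.sum_nonneg fun m _ => apx_sq_nonneg _) (Finset.mem_univ k)

/-- second derivatives of the average -/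
lemma apx_dd_U {n : ℕ} (u : Wf n) (hu : ∀ s, apx_CS (u s)) :
    dd (apx_U u) ≤ ((n : ℝ) * (3 * (n * (3 * n.factorial)))) * dd u := by
  have h1 : ∀ (k : Fin n) (i : Fin 3) (l : Fin n) (m : Fin 3),
      sq (fun s => dv k i (dv l m (apx_U u s))) ≤ (n.factorial : ℝ) * dd u := by
    intro k i l m
    have e : (fun s => dv k i (dv l m (apx_U u s))) =
        apx_A (fun π s => dv (π.symm k) i (dv (π.symm l) m (u s))) := by
      funext s
      unfold apx_U
      rw [apx_dv_A _ (fun _ s => hu s), apx_dv_A _ (fun π s => (hu s).dv _ _)]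
    rw [e]
    refine (apx_A_le _ fun π s => (((hu s).dv _ _).dv _ _).mem).trans ?_
    calc ∑ π : Equiv.Perm (Fin n), sq (fun s => dv (π.symm k) i (dv (π.symm l) m (u s)))
        ≤ ∑ _π : Equiv.Perm (Fin n), dd u :=
          Finset.sum_le_sum fun π _ => apx_dd_le u _ _ _ _
      _ = (n.factorial : ℝ) * dd u := by
          rw [Finset.sum_const, Finset.card_univ, Fintype.card_perm, Fintype.card_fin,
            nsmul_eq_mul]
  calc dd (apx_U u) ≤ ∑ _k : Fin n, ∑ _i : Fin 3, ∑ _l : Fin n, ∑ _m : Fin 3,
        (n.factorial : ℝ) * dd u :=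
        Finset.sum_le_sum fun k _ => Finset.sum_le_sum fun i _ => Finset.sum_le_sum fun l _ =>
          Finset.sum_le_sum fun m _ => h1 k i l m
    _ = _ := by
        simp only [Finset.sum_const, Finset.card_univ, Fintype.card_fin, nsmul_eq_mul]
        push_cast
        ring

lemma apx_V_mem (hI : ST_INT) {n : ℕ} (Z : ℝ) {v : Cf n → ℝ} (hv : apx_CS v) :
    MemLp (fun x => (rep x - Z * att x) * v x) 2 := by
  have hc := hv.1.continuous.measurable
  have h := hI n v v hv.1 hv.2 hv.1 hv.2
  have h1 : MemLp (fun x => att x * v x) 2 :=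
    (memLp_two_iff_integrable_sq (apx_att_meas.mul hc).aestronglyMeasurable).mpr h.2.2.1
  have h2 : MemLp (fun x => rep x * v x) 2 :=
    (memLp_two_iff_integrable_sq (apx_rep_meas.mul hc).aestronglyMeasurable).mpr h.2.2.2
  have e : (fun x : Cf n => (rep x - Z * att x) * v x) =
      (fun x => rep x * v x) - fun x => Z * (att x * v x) := by
    funext x
    simp only [Pi.sub_apply]
    ring
  rw [e]
  exact h2.sub (h1.const_mul Z)

lemma apx_hm_mem (hI : ST_INT) {n : ℕ} (Z E : ℝ) {v : Cf n → ℝ} (hv : apx_CS v) :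
    MemLp (fun x => hm Z v x - E * v x) 2 := by
  have h1 := apx_V_mem hI Z hv
  have h2 : MemLp (fun x => ∑ k, ∑ i, dv k i (dv k i v) x) 2 :=
    memLp_finsetSum _ fun k _ => memLp_finsetSum _ fun i _ => ((hv.dv k i).dv k i).mem
  have e : (fun x : Cf n => hm Z v x - E * v x) =
      ((fun x => (rep x - Z * att x) * v x) - fun x => ∑ k, ∑ i, dv k i (dv k i v) x) -
        fun x => E * v x := by
    funext x
    simp only [Pi.sub_apply, hm]
    ring
  rw [e]
  exact (h1.sub h2).sub (hv.mem.const_mul E)

/-- the residual of the average -/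
lemma apx_res_U (hI : ST_INT) {n : ℕ} (Z E : ℝ) (u : Wf n) (hu : ∀ s, apx_CS (u s)) :
    res Z E (apx_U u) ≤ (n.factorial : ℝ) * res Z E u := by
  unfold res
  have e : (fun s x => hm Z (apx_U u s) x - E * apx_U u s x) =
      apx_A (fun _ s x => hm Z (u s) x - E * u s x) := by
    funext s x
    exact apx_hm_A Z E u hu s x
  rw [e]
  refine (apx_A_le _ fun π s => apx_hm_mem hI Z E (hu s)).trans (le_of_eq ?_)
  rw [Finset.sum_const, Finset.card_univ, Fintype.card_perm, Fintype.card_fin, nsmul_eq_mul]

/-- the residual of the approximation -/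
lemma apx_res (hA1 : ST_HA1) (hA2 : ST_HA2) (hI : ST_INT) {n : ℕ} (E : ℝ) (φ : Wf n)
    (G : Fin n → Fin 3 → Wf n) (S : Fin n → Fin 3 → Fin n → Fin 3 → Wf n) (u : ℕ → Wf n)
    (hφ : ∀ s, MemLp (φ s) 2) (hG : ∀ k i s, MemLp (G k i s) 2)
    (hS : ∀ k i l m s, MemLp (S k i l m s) 2) (hu : ∀ j s, apx_CS (u j s))
    (h0 : Tendsto (fun j => sq (fun s x => u j s x - φ s x)) atTop (nhds 0))
    (h1 : ∀ k i, Tendsto (fun j => sq (fun s x => dv k i (u j s) x - G k i s x)) atTop (nhds 0))
    (h2 : ∀ k i l m, Tendsto (fun j => sq (fun s x => dv k i (dv l m (u j s)) x - S k i l m s x))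
      atTop (nhds 0))
    (he : ∀ s, ∀ᵐ x : Cf n, -(∑ k, ∑ i, S k i k i s x) + (rep x - (n : ℝ) * att x) * φ s x =
      E * φ s x) :
    Tendsto (fun j => res n E (u j)) atTop (nhds 0) := by
  have hV : ∀ s, MemLp (fun x => (rep x - (n : ℝ) * att x) * φ s x) 2 := by
    intro s
    have m1 : MemLp (fun x => E * φ s x + ∑ k, ∑ i, S k i k i s x) 2 :=
      ((hφ s).const_mul E).add
        (memLp_finsetSum _ fun k _ => memLp_finsetSum _ fun i _ => hS k i k i s)
    refine m1.ae_eq ?_
    filter_upwards [he s] with x hx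
    linarith
  have hs1 : ∀ s, Tendsto (fun j => ∫ x, (u j s x - φ s x) ^ 2) atTop (nhds 0) := fun s =>
    apx_one_tendsto (fun j s x => u j s x - φ s x) h0 s
  have hs2 : ∀ k i s, Tendsto (fun j => ∫ x, (dv k i (u j s) x - G k i s x) ^ 2) atTop (nhds 0) :=
    fun k i s => apx_one_tendsto (fun j s x => dv k i (u j s) x - G k i s x) (h1 k i) s
  have hs3 : ∀ k i s, Tendsto (fun j => ∫ x, (dv k i (dv k i (u j s)) x - S k i k i s x) ^ 2)
      atTop (nhds 0) := fun k i s =>
    apx_one_tendsto (fun j s x => dv k i (dv k i (u j s)) x - S k i k i s x) (h2 k i k i) s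
  -- the bound
  have hb : ∀ j, res n E (u j) ≤ ∑ s,
      (9 * n * (∑ k, ∑ i, ∫ x, (dv k i (dv k i (u j s)) x - S k i k i s x) ^ 2) +
        3 * (2 * apx_C n n * ∑ k, ∑ i, ∫ x, (dv k i (u j s) x - G k i s x) ^ 2) +
        3 * E ^ 2 * ∫ x, (u j s x - φ s x) ^ 2) := by
    intro j
    unfold res sq
    apply Finset.sum_le_sum
    intro s _
    have hp := apx_pot hA1 hA2 (n : ℝ) (fun j => u j s) (φ s) (fun k i => G k i s)
      (fun j => hu j s) (hφ s) (fun k i => hG k i s) (hV s)
      (fun j => apx_V_mem hI (n : ℝ) (hu j s)) (hs1 s) (fun k i => hs2 k i s) j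
    have m1 : ∀ k i, MemLp (fun x => dv k i (dv k i (u j s)) x - S k i k i s x) 2 := fun k i =>
      (((hu j s).dv k i).dv k i).mem.sub (hS k i k i s)
    have m2 : MemLp (fun x => (rep x - (n : ℝ) * att x) * (u j s x - φ s x)) 2 := by
      have e : (fun x : Cf n => (rep x - (n : ℝ) * att x) * (u j s x - φ s x)) =
          (fun x => (rep x - (n : ℝ) * att x) * u j s x) -
            fun x => (rep x - (n : ℝ) * att x) * φ s x := by
        funext x
        simp only [Pi.sub_apply]
        ring
      rw [e]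
      exact (apx_V_mem hI (n : ℝ) (hu j s)).sub (hV s)
    have m3 : MemLp (fun x => u j s x - φ s x) 2 := (hu j s).mem.sub (hφ s)
    have i1 : Integrable (fun x => ∑ k, ∑ i, (dv k i (dv k i (u j s)) x - S k i k i s x) ^ 2) :=
      integrable_finsetSum _ fun k _ => integrable_finsetSum _ fun i _ => (m1 k i).integrable_sq
    calc ∫ x, (hm n (u j s) x - E * u j s x) ^ 2
        ≤ ∫ x, ((9 * n * ∑ k, ∑ i, (dv k i (dv k i (u j s)) x - S k i k i s x) ^ 2) +
          3 * ((rep x - (n : ℝ) * att x) * (u j s x - φ s x)) ^ 2 +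
          3 * E ^ 2 * (u j s x - φ s x) ^ 2) := by
          apply integral_mono_of_nonneg (Eventually.of_forall fun x => sq_nonneg _)
            (((i1.const_mul _).add (m2.integrable_sq.const_mul 3)).add
              (m3.integrable_sq.const_mul _))
          filter_upwards [he s] with x hx
          change (hm n (u j s) x - E * u j s x) ^ 2 ≤
            (9 * n * ∑ k, ∑ i, (dv k i (dv k i (u j s)) x - S k i k i s x) ^ 2) +
            3 * ((rep x - (n : ℝ) * att x) * (u j s x - φ s x)) ^ 2 +
            3 * E ^ 2 * (u j s x - φ s x) ^ 2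
          have e1 : hm n (u j s) x - E * u j s x =
              -(∑ k, ∑ i, (dv k i (dv k i (u j s)) x - S k i k i s x)) +
              (rep x - (n : ℝ) * att x) * (u j s x - φ s x) - E * (u j s x - φ s x) := by
            simp only [hm, Finset.sum_sub_distrib]
            linear_combination hx
          have e2 : (∑ k, ∑ i, (dv k i (dv k i (u j s)) x - S k i k i s x)) ^ 2 ≤
              3 * n * ∑ k, ∑ i, (dv k i (dv k i (u j s)) x - S k i k i s x) ^ 2 := by
            have f1 := sq_sum_le_card_mul_sum_sq (s := (Finset.univ : Finset (Fin n)))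
              (f := fun k => ∑ i, (dv k i (dv k i (u j s)) x - S k i k i s x))
            rw [Finset.card_univ, Fintype.card_fin] at f1
            refine f1.trans ?_
            have f2 : ∀ k : Fin n, (∑ i, (dv k i (dv k i (u j s)) x - S k i k i s x)) ^ 2 ≤
                3 * ∑ i, (dv k i (dv k i (u j s)) x - S k i k i s x) ^ 2 := by
              intro k
              have f3 := sq_sum_le_card_mul_sum_sq (s := (Finset.univ : Finset (Fin 3)))
                (f := fun i => (dv k i (dv k i (u j s)) x - S k i k i s x))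
              rw [Finset.card_univ, Fintype.card_fin] at f3
              exact_mod_cast f3
            calc (n : ℝ) * ∑ k, (∑ i, (dv k i (dv k i (u j s)) x - S k i k i s x)) ^ 2
                ≤ (n : ℝ) * ∑ k, 3 * ∑ i, (dv k i (dv k i (u j s)) x - S k i k i s x) ^ 2 :=
                  mul_le_mul_of_nonneg_left (Finset.sum_le_sum fun k _ => f2 k)
                    (Nat.cast_nonneg _)
              _ = 3 * n * ∑ k, ∑ i, (dv k i (dv k i (u j s)) x - S k i k i s x) ^ 2 := by
                  rw [← Finset.mul_sum]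
                  ring
          have e3 : ∀ a b c : ℝ, (-a + b - c) ^ 2 ≤ 3 * a ^ 2 + 3 * b ^ 2 + 3 * c ^ 2 := by
            intro a b c
            nlinarith [sq_nonneg (a + b), sq_nonneg (a - c), sq_nonneg (b + c)]
          rw [e1]
          refine (e3 _ _ _).trans ?_
          have e4 : 3 * (E * (u j s x - φ s x)) ^ 2 = 3 * E ^ 2 * (u j s x - φ s x) ^ 2 := by ring
          rw [e4]
          linarith
      _ = 9 * n * (∑ k, ∑ i, ∫ x, (dv k i (dv k i (u j s)) x - S k i k i s x) ^ 2) +
          3 * (∫ x, ((rep x - (n : ℝ) * att x) * (u j s x - φ s x)) ^ 2) +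
          3 * E ^ 2 * ∫ x, (u j s x - φ s x) ^ 2 := by
          have i12 : Integrable (fun x =>
              (9 * n * ∑ k, ∑ i, (dv k i (dv k i (u j s)) x - S k i k i s x) ^ 2) +
              3 * ((rep x - (n : ℝ) * att x) * (u j s x - φ s x)) ^ 2) :=
            (i1.const_mul _).add (m2.integrable_sq.const_mul 3)
          rw [integral_add i12
            (m3.integrable_sq.const_mul _), integral_add (i1.const_mul _)
            (m2.integrable_sq.const_mul 3), integral_const_mul, integral_const_mul,
            integral_const_mul, integral_finsetSum _ (fun k _ => integrable_finsetSum _ fun i _ =>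
              (m1 k i).integrable_sq)]
          congr 3
          apply Finset.sum_congr rfl
          intro k _
          rw [integral_finsetSum _ fun i _ => (m1 k i).integrable_sq]
      _ ≤ _ := by
          have : 3 * (∫ x, ((rep x - (n : ℝ) * att x) * (u j s x - φ s x)) ^ 2) ≤
              3 * (2 * apx_C n n * ∑ k, ∑ i, ∫ x, (dv k i (u j s) x - G k i s x) ^ 2) :=
            mul_le_mul_of_nonneg_left hp (by norm_num)
          linarith
  have hr0 : ∀ j, 0 ≤ res n E (u j) := fun j => apx_sq_nonneg _
  refine squeeze_zero hr0 hb ?_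
  have hlim : Tendsto (fun j => ∑ s,
      (9 * n * (∑ k, ∑ i, ∫ x, (dv k i (dv k i (u j s)) x - S k i k i s x) ^ 2) +
        3 * (2 * apx_C n n * ∑ k, ∑ i, ∫ x, (dv k i (u j s) x - G k i s x) ^ 2) +
        3 * E ^ 2 * ∫ x, (u j s x - φ s x) ^ 2)) atTop
      (nhds (∑ _s : Fin n → Fin 2, (9 * n * (∑ _k : Fin n, ∑ _i : Fin 3, (0 : ℝ)) +
        3 * (2 * apx_C n n * ∑ _k : Fin n, ∑ _i : Fin 3, (0 : ℝ)) + 3 * E ^ 2 * 0))) := by
    apply tendsto_finsetSum
    intro s _
    apply Tendsto.add
    · apply Tendsto.add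
      · exact (tendsto_finsetSum _ fun k _ => tendsto_finsetSum _ fun i _ => hs3 k i s).const_mul _
      · exact ((tendsto_finsetSum _ fun k _ => tendsto_finsetSum _ fun i _ =>
          hs2 k i s).const_mul _).const_mul _
    · exact (hs1 s).const_mul _
  simpa using hlim

theorem st_APX (hA1 : ST_HA1) (hA2 : ST_HA2) (hI : ST_INT) : ST_APX := by
  intro n E φ G hGr
  obtain ⟨S, u, hS, hSm, h0, h1, h2, he⟩ := hGr.eigen
  have hu : ∀ j s, apx_CS (u j s) := fun j s => hSm j s
  have hmφ : ∀ j s, MemLp (fun x => u j s x - φ s x) 2 := fun j s =>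
    (hu j s).mem.sub (hGr.lp s)
  -- bounded second derivatives
  have hM : ∃ M : ℝ, ∀ j, dd (u j) ≤ M := by
    have hb : ∀ j, dd (u j) ≤ ∑ k, ∑ i, ∑ l, ∑ m,
        (2 * sq (fun s x => dv k i (dv l m (u j s)) x - S k i l m s x) +
          2 * sq (S k i l m)) := by
      intro j
      unfold dd
      refine Finset.sum_le_sum fun k _ => Finset.sum_le_sum fun i _ => Finset.sum_le_sum fun l _ =>
        Finset.sum_le_sum fun m _ => ?_
      apply apx_tri (fun s x => dv k i (dv l m (u j s)) x - S k i l m s x) (S k i l m)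
        (fun s => dv k i (dv l m (u j s)))
        (fun s => (((hu j s).dv l m).dv k i).mem.sub (hS k i l m s)) (fun s => hS k i l m s)
      intro s
      filter_upwards with x
      ring
    have ht : Tendsto (fun j => ∑ k, ∑ i, ∑ l, ∑ m,
        (2 * sq (fun s x => dv k i (dv l m (u j s)) x - S k i l m s x) +
          2 * sq (S k i l m))) atTop (nhds (∑ k, ∑ i, ∑ l, ∑ m,
        (2 * 0 + 2 * sq (S k i l m)))) := by
      refine tendsto_finsetSum _ fun k _ => tendsto_finsetSum _ fun i _ =>
        tendsto_finsetSum _ fun l _ => tendsto_finsetSum _ fun m _ => ?_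
      exact ((h2 k i l m).const_mul 2).add tendsto_const_nhds
    obtain ⟨M, hM⟩ := ht.bddAbove_range
    exact ⟨M, fun j => (hb j).trans (hM ⟨j, rfl⟩)⟩
  obtain ⟨M, hM⟩ := hM
  have hU : ∀ j s, apx_CS (apx_U (u j) s) := fun j s => apx_A_CS _ (fun _ s => hu j s) s
  have hsign : ∀ j, sq (fun s x => apx_U (u j) s x - φ s x) ≤
      (n.factorial : ℝ) * sq (fun s x => u j s x - φ s x) := by
    intro j
    have e : sq (fun s x => apx_U (u j) s x - φ s x) =
        sq (apx_A (fun _ s x => u j s x - φ s x)) := by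
      unfold sq
      apply Finset.sum_congr rfl
      intro s _
      apply integral_congr_ae
      filter_upwards [apx_U_sub (u j) φ hGr.anti s] with x hx
      rw [hx]
    rw [e]
    refine (apx_A_le _ fun π s => hmφ j s).trans (le_of_eq ?_)
    rw [Finset.sum_const, Finset.card_univ, Fintype.card_perm, Fintype.card_fin, nsmul_eq_mul]
  have t0 : Tendsto (fun j => sq (fun s x => apx_U (u j) s x - φ s x)) atTop (nhds 0) := by
    refine squeeze_zero (fun j => apx_sq_nonneg _) hsign ?_
    simpa using h0.const_mul (n.factorial : ℝ)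
  set K : ℝ := ((n : ℝ) * (3 * (n * (3 * n.factorial)))) with hK
  have hK0 : 0 ≤ K := by positivity
  have hddU : ∀ j, dd (apx_U (u j)) ≤ K * M := fun j =>
    (apx_dd_U (u j) (hu j)).trans (mul_le_mul_of_nonneg_left (hM j) hK0)
  -- the difference tends to zero
  let a : ℕ → ℝ := fun j => 2 * sq (fun s x => u j s x - φ s x) +
    2 * sq (fun s x => apx_U (u j) s x - φ s x)
  have ha0 : ∀ j, 0 ≤ a j := fun j => by
    have h1 := apx_sq_nonneg (fun s x => u j s x - φ s x)
    have h2 := apx_sq_nonneg (fun s x => apx_U (u j) s x - φ s x)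
    simp only [a]
    linarith
  have ta : Tendsto a atTop (nhds 0) := by
    have := (h0.const_mul 2).add (t0.const_mul 2)
    simpa using this
  set M' : ℝ := 2 * M + 2 * (K * M) with hM'
  have hdiff : ∀ (k : Fin n) (i : Fin 3) (j : ℕ) (t : ℝ), 0 < t →
      sq (fun s x => dv k i (apx_U (u j) s) x - dv k i (u j s) x) ≤ 1 / t * a j + t * M' := by
    intro k i j t ht
    have e1 : ∀ s x, dv k i (fun x => apx_U (u j) s x - u j s x) x =
        dv k i (apx_U (u j) s) x - dv k i (u j s) x := by
      intro s x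
      unfold dv
      rw [fderiv_fun_sub ((hU j s).1.differentiable (by simp) x)
        ((hu j s).1.differentiable (by simp) x)]
      rfl
    have e2 : ∀ s x, dv k i (dv k i (fun x => apx_U (u j) s x - u j s x)) x =
        dv k i (dv k i (apx_U (u j) s)) x - dv k i (dv k i (u j s)) x := by
      intro s x
      have : dv k i (fun x => apx_U (u j) s x - u j s x) =
          fun x => dv k i (apx_U (u j) s) x - dv k i (u j s) x := funext fun x => e1 s x
      rw [this]
      have d1 := ((hU j s).dv k i).1.differentiable (by simp) x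
      have d2 := ((hu j s).dv k i).1.differentiable (by simp) x
      change fderiv ℝ (fun x => dv k i (apx_U (u j) s) x - dv k i (u j s) x) x
        (Pi.single k (Pi.single i 1)) = _
      rw [fderiv_fun_sub d1 d2]
      rfl
    have hCS : ∀ s, apx_CS (fun x => apx_U (u j) s x - u j s x) := fun s => (hU j s).sub (hu j s)
    have b1 : sq (fun s x => apx_U (u j) s x - u j s x) ≤ a j := by
      have h3 : sq (fun s x => apx_U (u j) s x - u j s x) ≤
          2 * sq (fun s x => apx_U (u j) s x - φ s x) +
          2 * sq (fun s x => -(u j s x - φ s x)) := by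
        apply apx_tri (fun s x => apx_U (u j) s x - φ s x) (fun s x => -(u j s x - φ s x))
        · intro s
          exact (hU j s).mem.sub (hGr.lp s)
        · intro s
          exact (hmφ j s).neg
        · intro s
          filter_upwards with x
          ring
      have h4 : sq (fun s x => -(u j s x - φ s x)) = sq (fun s x => u j s x - φ s x) := by
        unfold sq
        simp only [neg_sq]
      rw [h4] at h3
      simp only [a]
      linarith
    have b2 : sq (fun s => dv k i (dv k i (fun x => apx_U (u j) s x - u j s x))) ≤ M' := by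
      have h3 : sq (fun s => dv k i (dv k i (fun x => apx_U (u j) s x - u j s x))) ≤
          2 * sq (fun s => dv k i (dv k i (apx_U (u j) s))) +
          2 * sq (fun s x => -dv k i (dv k i (u j s)) x) := by
        apply apx_tri (fun s => dv k i (dv k i (apx_U (u j) s)))
          (fun s x => -dv k i (dv k i (u j s)) x)
        · intro s
          exact (((hU j s).dv k i).dv k i).mem
        · intro s
          exact (((hu j s).dv k i).dv k i).mem.neg
        · intro s
          filter_upwards with x
          rw [e2 s x]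
          ring
      have h4 : sq (fun s x => -dv k i (dv k i (u j s)) x) =
          sq (fun s => dv k i (dv k i (u j s))) := by
        unfold sq
        simp only [neg_sq]
      rw [h4] at h3
      have h5 := (apx_dd_le (apx_U (u j)) k i k i).trans (hddU j)
      have h6 := (apx_dd_le (u j) k i k i).trans (hM j)
      rw [hM']
      linarith
    have b3 : sq (fun s x => dv k i (apx_U (u j) s) x - dv k i (u j s) x) ≤
        1 / t * sq (fun s x => apx_U (u j) s x - u j s x) +
        t * sq (fun s => dv k i (dv k i (fun x => apx_U (u j) s x - u j s x))) := by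
      unfold sq
      rw [Finset.mul_sum, Finset.mul_sum, ← Finset.sum_add_distrib]
      apply Finset.sum_le_sum
      intro s _
      have := apx_interp (hCS s) k i t ht
      simp only [e1] at this
      exact this
    refine b3.trans (add_le_add ?_ ?_)
    · exact mul_le_mul_of_nonneg_left b1 (by positivity)
    · exact mul_le_mul_of_nonneg_left b2 ht.le
  have tdiff : ∀ (k : Fin n) (i : Fin 3), Tendsto
      (fun j => sq (fun s x => dv k i (apx_U (u j) s) x - dv k i (u j s) x)) atTop (nhds 0) := by
    intro k i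
    let t : ℕ → ℝ := fun j => Real.sqrt (a j) + 1 / ((j : ℝ) + 1)
    have ht0 : ∀ j, 0 < t j := fun j => by
      simp only [t]
      positivity
    have tt : Tendsto t atTop (nhds 0) := by
      have h3 : Tendsto (fun j => Real.sqrt (a j)) atTop (nhds 0) := by
        have := ta.sqrt
        simpa using this
      have h4 := h3.add (tendsto_one_div_add_atTop_nhds_zero_nat (𝕜 := ℝ))
      rw [add_zero] at h4
      exact h4
    have hbd : ∀ j, sq (fun s x => dv k i (apx_U (u j) s) x - dv k i (u j s) x) ≤
        Real.sqrt (a j) + t j * M' := by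
      intro j
      refine (hdiff k i j (t j) (ht0 j)).trans (add_le_add ?_ le_rfl)
      rw [one_div, inv_mul_le_iff₀ (ht0 j)]
      have h5 : Real.sqrt (a j) ≤ t j := by
        simp only [t]
        have : 0 ≤ 1 / ((j : ℝ) + 1) := by positivity
        linarith
      calc a j = Real.sqrt (a j) * Real.sqrt (a j) := (Real.mul_self_sqrt (ha0 j)).symm
        _ ≤ t j * Real.sqrt (a j) := mul_le_mul_of_nonneg_right h5 (Real.sqrt_nonneg _)
    refine squeeze_zero (fun j => apx_sq_nonneg _) hbd ?_
    have h3 : Tendsto (fun j => Real.sqrt (a j)) atTop (nhds 0) := by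
      have := ta.sqrt
      simpa using this
    have h4 := h3.add (tt.mul_const M')
    rw [zero_mul, add_zero] at h4
    exact h4
  refine ⟨fun j => apx_U (u j), fun j => ⟨fun s => hU j s, apx_U_anti (u j)⟩, t0, ?_,
    ⟨K * M, hddU⟩, ?_⟩
  · intro k i
    have hbd : ∀ j, sq (fun s x => dv k i (apx_U (u j) s) x - G k i s x) ≤
        2 * sq (fun s x => dv k i (apx_U (u j) s) x - dv k i (u j s) x) +
        2 * sq (fun s x => dv k i (u j s) x - G k i s x) := by
      intro j
      apply apx_tri (fun s x => dv k i (apx_U (u j) s) x - dv k i (u j s) x)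
        (fun s x => dv k i (u j s) x - G k i s x)
      · intro s
        exact ((hU j s).dv k i).mem.sub ((hu j s).dv k i).mem
      · intro s
        exact ((hu j s).dv k i).mem.sub (hGr.lpG k i s)
      · intro s
        filter_upwards with x
        ring
    refine squeeze_zero (fun j => apx_sq_nonneg _) hbd ?_
    have := ((tdiff k i).const_mul 2).add ((h1 k i).const_mul 2)
    simpa using this
  · have hr := apx_res hA1 hA2 hI E φ G S u hGr.lp hGr.lpG hS hu h0 h1 h2 he
    refine squeeze_zero (fun j => apx_sq_nonneg _) (fun j => apx_res_U hI n E (u j) (hu j)) ?_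
    simpa using hr.const_mul (n.factorial : ℝ)

end Pool.Agent.Helper95.PW
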