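import Pool.Agent.Helper95.PW.Stmts

set_option autoImplicit false

namespace Pool.Agent.Helper95.PW

open MeasureTheory Filter

/-- smooth with compact support -/
def apx_CS {n : ℕ} (v : Cf n → ℝ) : Prop := ContDiff ℝ (⊤ : ℕ∞) v ∧ HasCompactSupport v

lemma apx_CS.dv {n : ℕ} {v : Cf n → ℝ} (h : apx_CS v) (k : Fin n) (i : Fin 3) :
    apx_CS (dv k i v) := by
  constructor
  · unfold Pool.Agent.Helper95.PW.dv
    exact (h.1.fderiv_right (m := ((⊤ : ℕ∞) : WithTop ℕ∞)) (by exact_mod_cast le_top)).clm_apply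
      contDiff_const
  · exact h.2.fderiv_apply (𝕜 := ℝ) _

lemma apx_CS.mem {n : ℕ} {v : Cf n → ℝ} (h : apx_CS v) : MemLp v 2 :=
  h.1.continuous.memLp_of_hasCompactSupport h.2

lemma apx_CS.sub {n : ℕ} {v w : Cf n → ℝ} (h : apx_CS v) (h' : apx_CS w) :
    apx_CS (fun x => v x - w x) :=
  ⟨h.1.sub h'.1, HasCompactSupport.comp₂_left (m := fun a b : ℝ => a - b) h.2 h'.2 (by simp)⟩

/-- permutation of the electrons -/
def apx_L {n : ℕ} (π : Equiv.Perm (Fin n)) (x : Cf n) : Cf n := fun i => x (π i)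

/-- as a homeomorphism -/
def apx_H {n : ℕ} (π : Equiv.Perm (Fin n)) : Cf n ≃ₜ Cf n where
  toFun := apx_L π
  invFun := apx_L π.symm
  left_inv x := by
    funext i
    simp [apx_L]
  right_inv x := by
    funext i
    simp [apx_L]
  continuous_toFun := continuous_pi fun i => continuous_apply (π i)
  continuous_invFun := continuous_pi fun i => continuous_apply (π.symm i)

/-- as a linear map -/
def apx_M {n : ℕ} (π : Equiv.Perm (Fin n)) : Cf n →L[ℝ] Cf n :=
  ContinuousLinearMap.pi fun i => ContinuousLinearMap.proj (π i)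

lemma apx_M_eq {n : ℕ} (π : Equiv.Perm (Fin n)) : ⇑(apx_M π) = apx_L π := rfl

lemma apx_mp {n : ℕ} (π : Equiv.Perm (Fin n)) :
    MeasurePreserving (apx_L π) (volume : Measure (Cf n)) volume := by
  have h := volume_measurePreserving_piCongrLeft (fun _ : Fin n => R3) π.symm
  have e : ⇑(MeasurableEquiv.piCongrLeft (fun _ : Fin n => R3) π.symm) = apx_L π := by
    funext x i
    rw [MeasurableEquiv.coe_piCongrLeft]
    have := Equiv.piCongrLeft_apply_apply (fun _ : Fin n => R3) π.symm x (π i)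
    simpa [apx_L] using this
  rwa [e] at h

lemma apx_CS.comp {n : ℕ} {v : Cf n → ℝ} (h : apx_CS v) (π : Equiv.Perm (Fin n)) :
    apx_CS (fun x => v (apx_L π x)) :=
  ⟨h.1.comp (apx_M π).contDiff, h.2.comp_homeomorph (apx_H π)⟩

lemma apx_dv_comp {n : ℕ} {v : Cf n → ℝ} (h : apx_CS v) (π : Equiv.Perm (Fin n)) (k : Fin n)
    (i : Fin 3) (x : Cf n) :
    dv k i (fun x => v (apx_L π x)) x = dv (π.symm k) i v (apx_L π x) := by
  unfold dv
  have h1 : HasFDerivAt v (fderiv ℝ v (apx_L π x)) (apx_L π x) :=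
    ((h.1.differentiable (by simp)) _).hasFDerivAt
  have h2 : HasFDerivAt (apx_L π) (apx_M π) x := (apx_M π).hasFDerivAt
  have h3 := h1.comp x h2
  have h4 : fderiv ℝ (fun x => v (apx_L π x)) x = (fderiv ℝ v (apx_L π x)).comp (apx_M π) :=
    h3.fderiv
  rw [h4, ContinuousLinearMap.comp_apply]
  congr 1
  funext j
  rw [apx_M_eq]
  unfold apx_L
  by_cases hj : π j = k
  · have : j = π.symm k := by rw [← hj]; simp
    subst this
    simp
  · have : j ≠ π.symm k := by
      intro h'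
      apply hj
      rw [h']
      simp
    rw [Pi.single_eq_of_ne hj, Pi.single_eq_of_ne this]

/-- signed average over the permutations -/
noncomputable def apx_A {n : ℕ} (v : Equiv.Perm (Fin n) → Wf n) : Wf n := fun s x =>
  ((n.factorial : ℝ))⁻¹ * ∑ π : Equiv.Perm (Fin n),
    ((Equiv.Perm.sign π : ℤ) : ℝ) * v π (fun i => s (π i)) (apx_L π x)

lemma apx_sign {n : ℕ} (π : Equiv.Perm (Fin n)) :
    (((Equiv.Perm.sign π : ℤ) : ℝ)) ^ 2 = 1 := by
  rcases Int.units_eq_one_or (Equiv.Perm.sign π) with h | h <;> rw [h] <;> norm_num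

lemma apx_A_sq {n : ℕ} (v : Equiv.Perm (Fin n) → Wf n) (s : Fin n → Fin 2) (x : Cf n) :
    apx_A v s x ^ 2 ≤ ∑ π : Equiv.Perm (Fin n), v π (fun i => s (π i)) (apx_L π x) ^ 2 := by
  unfold apx_A
  rw [mul_pow]
  have h1 := sq_sum_le_card_mul_sum_sq (s := (Finset.univ : Finset (Equiv.Perm (Fin n))))
    (f := fun π => ((Equiv.Perm.sign π : ℤ) : ℝ) * v π (fun i => s (π i)) (apx_L π x))
  rw [Finset.card_univ, Fintype.card_perm, Fintype.card_fin] at h1
  simp only [mul_pow, apx_sign, one_mul] at h1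
  have hn : (1 : ℝ) ≤ n.factorial := by exact_mod_cast n.factorial_pos
  have h2 : ((n.factorial : ℝ))⁻¹ ^ 2 * ((n.factorial : ℝ) *
      ∑ π : Equiv.Perm (Fin n), v π (fun i => s (π i)) (apx_L π x) ^ 2) ≤
      ∑ π : Equiv.Perm (Fin n), v π (fun i => s (π i)) (apx_L π x) ^ 2 := by
    have h3 : 0 ≤ ∑ π : Equiv.Perm (Fin n), v π (fun i => s (π i)) (apx_L π x) ^ 2 :=
      Finset.sum_nonneg fun π _ => sq_nonneg _
    have h4 : ((n.factorial : ℝ))⁻¹ ^ 2 * (n.factorial : ℝ) = ((n.factorial : ℝ))⁻¹ := by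
      field_simp
    rw [← mul_assoc, h4]
    have h5 : ((n.factorial : ℝ))⁻¹ ≤ 1 := inv_le_one_of_one_le₀ hn
    nlinarith
  refine le_trans ?_ h2
  apply mul_le_mul_of_nonneg_left h1 (by positivity)

/-- the average is bounded -/
lemma apx_A_le {n : ℕ} (v : Equiv.Perm (Fin n) → Wf n) (hv : ∀ π s, MemLp (v π s) 2) :
    sq (apx_A v) ≤ ∑ π, sq (v π) := by
  unfold sq
  have hmp : ∀ (π : Equiv.Perm (Fin n)) (s : Fin n → Fin 2),
      MemLp (fun x => v π s (apx_L π x)) 2 := fun π s => (hv π s).comp_measurePreserving (apx_mp π)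
  have h1 : ∀ s, ∫ x, apx_A v s x ^ 2 ≤
      ∑ π : Equiv.Perm (Fin n), ∫ x, v π (fun i => s (π i)) x ^ 2 := by
    intro s
    calc ∫ x, apx_A v s x ^ 2
        ≤ ∫ x, ∑ π : Equiv.Perm (Fin n), v π (fun i => s (π i)) (apx_L π x) ^ 2 := by
          apply integral_mono_of_nonneg
          · exact Eventually.of_forall fun x => sq_nonneg _
          · exact integrable_finsetSum _ fun π _ => (hmp π _).integrable_sq
          · exact Eventually.of_forall fun x => apx_A_sq v s x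
      _ = ∑ π : Equiv.Perm (Fin n), ∫ x, v π (fun i => s (π i)) (apx_L π x) ^ 2 :=
          integral_finsetSum _ fun π _ => (hmp π _).integrable_sq
      _ = ∑ π : Equiv.Perm (Fin n), ∫ x, v π (fun i => s (π i)) x ^ 2 := by
          apply Finset.sum_congr rfl
          intro π _
          exact (apx_mp π).integral_comp (apx_H π).measurableEmbedding
            (fun x => v π (fun i => s (π i)) x ^ 2)
  calc ∑ s, ∫ x, apx_A v s x ^ 2
      ≤ ∑ s : Fin n → Fin 2, ∑ π : Equiv.Perm (Fin n), ∫ x, v π (fun i => s (π i)) x ^ 2 :=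
        Finset.sum_le_sum fun s _ => h1 s
    _ = ∑ π : Equiv.Perm (Fin n), ∑ s : Fin n → Fin 2, ∫ x, v π (fun i => s (π i)) x ^ 2 :=
        Finset.sum_comm
    _ = ∑ π : Equiv.Perm (Fin n), ∑ s : Fin n → Fin 2, ∫ x, v π s x ^ 2 := by
        apply Finset.sum_congr rfl
        intro π _
        exact Equiv.sum_comp (Equiv.arrowCongr π.symm (Equiv.refl (Fin 2)))
          (fun s => ∫ x, v π s x ^ 2)

/-- the average of one function -/
noncomputable def apx_U {n : ℕ} (u : Wf n) : Wf n := apx_A (fun _ => u)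

lemma apx_CS_sum {n : ℕ} {ι : Type} (t : Finset ι) (f : ι → Cf n → ℝ)
    (h : ∀ i ∈ t, apx_CS (f i)) : apx_CS (fun x => ∑ i ∈ t, f i x) := by
  classical
  induction t using Finset.induction_on with
  | empty =>
    simp only [Finset.sum_empty]
    exact ⟨contDiff_const, HasCompactSupport.zero⟩
  | insert a t ha ih =>
    have h1 := h a (Finset.mem_insert_self a t)
    have h2 := ih fun i hi => h i (Finset.mem_insert_of_mem hi)
    simp only [Finset.sum_insert ha]
    exact ⟨h1.1.add h2.1, HasCompactSupport.comp₂_left (m := fun a b : ℝ => a + b) h1.2 h2.2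
      (by simp)⟩

lemma apx_CS.const_mul {n : ℕ} {v : Cf n → ℝ} (h : apx_CS v) (c : ℝ) :
    apx_CS (fun x => c * v x) :=
  ⟨contDiff_const.mul h.1, h.2.mul_left⟩

lemma apx_A_CS {n : ℕ} (v : Equiv.Perm (Fin n) → Wf n) (hv : ∀ π s, apx_CS (v π s))
    (s : Fin n → Fin 2) : apx_CS (apx_A v s) := by
  unfold apx_A
  apply apx_CS.const_mul
  apply apx_CS_sum
  intro π _
  exact ((hv π _).comp π).const_mul _

lemma apx_dv_A {n : ℕ} (v : Equiv.Perm (Fin n) → Wf n) (hv : ∀ π s, apx_CS (v π s))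
    (s : Fin n → Fin 2) (k : Fin n) (i : Fin 3) :
    dv k i (apx_A v s) = apx_A (fun π s => dv (π.symm k) i (v π s)) s := by
  funext x
  have hd : ∀ π : Equiv.Perm (Fin n), DifferentiableAt ℝ
      (fun x => ((Equiv.Perm.sign π : ℤ) : ℝ) * v π (fun i => s (π i)) (apx_L π x)) x := by
    intro π
    exact (((hv π _).comp π).const_mul _).1.differentiable (by simp) x
  have hd' : ∀ π : Equiv.Perm (Fin n), DifferentiableAt ℝ
      (fun x => v π (fun i => s (π i)) (apx_L π x)) x := by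
    intro π
    exact ((hv π _).comp π).1.differentiable (by simp) x
  unfold apx_A
  have h1 : dv k i (fun x => ((n.factorial : ℝ))⁻¹ * ∑ π : Equiv.Perm (Fin n),
      ((Equiv.Perm.sign π : ℤ) : ℝ) * v π (fun i => s (π i)) (apx_L π x)) x =
      ((n.factorial : ℝ))⁻¹ * ∑ π : Equiv.Perm (Fin n), ((Equiv.Perm.sign π : ℤ) : ℝ) *
        dv k i (fun x => v π (fun i => s (π i)) (apx_L π x)) x := by
    unfold dv
    rw [fderiv_const_mul (DifferentiableAt.fun_sum fun π _ => hd π), fderiv_fun_sum fun π _ => hd π]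
    simp only [smul_apply, sum_apply, smul_eq_mul]
    congr 1
    apply Finset.sum_congr rfl
    intro π _
    rw [fderiv_const_mul (hd' π), smul_apply, smul_eq_mul]
  rw [h1]
  congr 1
  apply Finset.sum_congr rfl
  intro π _
  rw [apx_dv_comp (hv π _) π k i x]

lemma apx_U_anti {n : ℕ} (u : Wf n) : Anti (apx_U u) := by
  intro ρ s x
  have key : ∑ π : Equiv.Perm (Fin n), ((Equiv.Perm.sign π : ℤ) : ℝ) *
      u (fun i => s (ρ (π i))) (apx_L π (fun i => x (ρ i))) =
      ((Equiv.Perm.sign ρ : ℤ) : ℝ) * ∑ π : Equiv.Perm (Fin n),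
        ((Equiv.Perm.sign π : ℤ) : ℝ) * u (fun i => s (π i)) (apx_L π x) := by
    rw [← Equiv.sum_comp (Equiv.mulLeft ρ) (fun π : Equiv.Perm (Fin n) =>
      ((Equiv.Perm.sign π : ℤ) : ℝ) * u (fun i => s (π i)) (apx_L π x)), Finset.mul_sum]
    apply Finset.sum_congr rfl
    intro π _
    have h1 : ((Equiv.Perm.sign (ρ * π) : ℤ) : ℝ) =
        ((Equiv.Perm.sign ρ : ℤ) : ℝ) * ((Equiv.Perm.sign π : ℤ) : ℝ) := by
      rw [Equiv.Perm.sign_mul]
      push_cast
      ring
    have h2 : ((Equiv.Perm.sign ρ : ℤ) : ℝ) * (((Equiv.Perm.sign ρ : ℤ) : ℝ) *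
        ((Equiv.Perm.sign π : ℤ) : ℝ)) = ((Equiv.Perm.sign π : ℤ) : ℝ) := by
      have := apx_sign ρ
      rw [← mul_assoc, ← pow_two, this, one_mul]
    simp only [Equiv.coe_mulLeft]
    rw [h1, ← mul_assoc, h2]
    rfl
  have e1 : apx_U u (fun i => s (ρ i)) (fun i => x (ρ i)) = ((n.factorial : ℝ))⁻¹ *
      ∑ π : Equiv.Perm (Fin n), ((Equiv.Perm.sign π : ℤ) : ℝ) *
      u (fun i => s (ρ (π i))) (apx_L π (fun i => x (ρ i))) := rfl
  have e2 : apx_U u s x = ((n.factorial : ℝ))⁻¹ * ∑ π : Equiv.Perm (Fin n),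
        ((Equiv.Perm.sign π : ℤ) : ℝ) * u (fun i => s (π i)) (apx_L π x) := rfl
  rw [e1, e2, key]
  ring

lemma apx_att {n : ℕ} (π : Equiv.Perm (Fin n)) (x : Cf n) : att (apx_L π x) = att x := by
  unfold att apx_L
  exact Equiv.sum_comp π (fun k => 1 / nr (x k))

lemma apx_nr_neg (y z : R3) : nr (y - z) = nr (z - y) := by
  unfold nr
  congr 1
  simp only [Pi.sub_apply]
  ring

lemma apx_rep_eq {n : ℕ} (x : Cf n) :
    rep x = (∑ k, ∑ l, if k ≠ l then 1 / nr (x k - x l) else 0) / 2 := by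
  unfold rep
  rw [eq_div_iff (by norm_num), mul_two]
  nth_rewrite 2 [Finset.sum_comm]
  rw [← Finset.sum_add_distrib]
  apply Finset.sum_congr rfl
  intro k _
  rw [← Finset.sum_add_distrib]
  apply Finset.sum_congr rfl
  intro l _
  rcases lt_trichotomy k l with h | h | h
  · rw [if_pos h, if_neg (not_lt.mpr h.le), if_pos h.ne, add_zero]
  · subst h
    simp
  · rw [if_neg (not_lt.mpr h.le), if_pos h, if_pos h.ne', zero_add, apx_nr_neg]

lemma apx_rep {n : ℕ} (π : Equiv.Perm (Fin n)) (x : Cf n) : rep (apx_L π x) = rep x := by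
  rw [apx_rep_eq, apx_rep_eq]
  congr 1
  unfold apx_L
  rw [← Equiv.sum_comp π (fun k => ∑ l, if k ≠ l then 1 / nr (x k - x l) else 0)]
  apply Finset.sum_congr rfl
  intro k _
  rw [← Equiv.sum_comp π (fun l => if π k ≠ l then 1 / nr (x (π k) - x l) else 0)]
  apply Finset.sum_congr rfl
  intro l _
  simp only [ne_eq, EmbeddingLike.apply_eq_iff_eq]

lemma apx_hm_A {n : ℕ} (Z E : ℝ) (u : Wf n) (hu : ∀ s, apx_CS (u s)) (s : Fin n → Fin 2)
    (x : Cf n) :
    hm Z (apx_U u s) x - E * apx_U u s x =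
      apx_A (fun _ s x => hm Z (u s) x - E * u s x) s x := by
  have h1 : ∀ (k : Fin n) (i : Fin 3), dv k i (dv k i (apx_U u s)) x =
      apx_A (fun π s => dv (π.symm k) i (dv (π.symm k) i (u s))) s x := by
    intro k i
    unfold apx_U
    rw [apx_dv_A _ (fun _ s => hu s), apx_dv_A _ (fun π s => (hu s).dv _ _)]
  unfold hm
  simp only [h1]
  unfold apx_U apx_A
  have e1 : ∀ c : ℝ, ∀ f g : Equiv.Perm (Fin n) → ℝ, c * ∑ π, f π + c * ∑ π, g π =
      c * ∑ π, (f π + g π) := by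
    intro c f g
    rw [Finset.sum_add_distrib]
    ring
  have e2 : ∑ k : Fin n, ∑ i : Fin 3, ((n.factorial : ℝ))⁻¹ * ∑ π : Equiv.Perm (Fin n),
      ((Equiv.Perm.sign π : ℤ) : ℝ) *
        dv (π.symm k) i (dv (π.symm k) i (u fun i => s (π i))) (apx_L π x) =
      ((n.factorial : ℝ))⁻¹ * ∑ π : Equiv.Perm (Fin n), ((Equiv.Perm.sign π : ℤ) : ℝ) *
        ∑ k : Fin n, ∑ i : Fin 3, dv k i (dv k i (u fun i => s (π i))) (apx_L π x) := by
    simp only [← Finset.mul_sum]
    congr 1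
    have e3 : ∀ k : Fin n, ∑ i : Fin 3, ∑ π : Equiv.Perm (Fin n),
        ((Equiv.Perm.sign π : ℤ) : ℝ) *
          dv (π.symm k) i (dv (π.symm k) i (u fun i => s (π i))) (apx_L π x) =
        ∑ π : Equiv.Perm (Fin n), ∑ i : Fin 3, ((Equiv.Perm.sign π : ℤ) : ℝ) *
          dv (π.symm k) i (dv (π.symm k) i (u fun i => s (π i))) (apx_L π x) :=
      fun k => Finset.sum_comm
    simp only [e3]
    rw [Finset.sum_comm]
    apply Finset.sum_congr rfl
    intro π _
    rw [Finset.mul_sum]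
    rw [← Equiv.sum_comp π.symm (fun k => ((Equiv.Perm.sign π : ℤ) : ℝ) *
      ∑ i : Fin 3, dv k i (dv k i (u fun i => s (π i))) (apx_L π x))]
    apply Finset.sum_congr rfl
    intro k _
    rw [Finset.mul_sum]
  rw [e2]
  have e4 : ∀ π : Equiv.Perm (Fin n), rep (apx_L π x) - Z * att (apx_L π x) =
      rep x - Z * att x := by
    intro π
    rw [apx_rep, apx_att]
  simp only [e4, mul_sub, mul_add, mul_neg, Finset.sum_add_distrib, Finset.sum_sub_distrib,
    Finset.sum_neg_distrib, Finset.mul_sum]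
  have e5 : ∀ c f g : ℝ, c * (f * g) = f * (c * g) := by intros; ring
  ring_nf

end Pool.Agent.Helper95.PW
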