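import Pool.Agent.Helper47.PW.APXa

set_option autoImplicit false

namespace Pool.Agent.Helper95.PW

open MeasureTheory Filter

lemma apx_nr_cont : Continuous nr := by
  unfold nr
  fun_prop

lemma apx_att_meas {n : ℕ} : Measurable (att : Cf n → ℝ) := by
  unfold att
  apply Finset.measurable_fun_sum
  intro k _
  exact measurable_const.div ((apx_nr_cont.comp (continuous_apply k)).measurable)

lemma apx_rep_meas {n : ℕ} : Measurable (rep : Cf n → ℝ) := by
  unfold rep
  apply Finset.measurable_fun_sum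
  intro k _
  apply Finset.measurable_fun_sum
  intro l _
  by_cases h : k < l
  · simp only [if_pos h]
    exact measurable_const.div
      ((apx_nr_cont.comp ((continuous_apply k).sub (continuous_apply l))).measurable)
  · simp only [if_neg h]
    exact measurable_const

/-- the constant in Hardy's inequality -/
noncomputable def apx_C (n : ℕ) (Z : ℝ) : ℝ := 8 * (n : ℝ) ^ 3 + 8 * Z ^ 2 * n

lemma apx_C_nonneg (n : ℕ) (Z : ℝ) : 0 ≤ apx_C n Z := by
  unfold apx_C
  positivity

/-- Hardy's inequality for the potential -/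
lemma apx_hardy (hA1 : ST_HA1) (hA2 : ST_HA2) {n : ℕ} (Z : ℝ) {w : Cf n → ℝ} (hw : apx_CS w) :
    ∫⁻ x, ENNReal.ofReal (((rep x - Z * att x) * w x) ^ 2) ≤
      ENNReal.ofReal (apx_C n Z * ∑ k, ∫ x, ∑ i, dv k i w x ^ 2) := by
  classical
  set D : Fin n → ℝ := fun k => ∫ x, ∑ i, dv k i w x ^ 2 with hD
  have hD0 : ∀ k, 0 ≤ D k := fun k => integral_nonneg fun x => Finset.sum_nonneg fun i _ => sq_nonneg _
  let f1 : Fin n → Cf n → ℝ := fun k x => w x ^ 2 / nr (x k) ^ 2
  let f2 : Fin n → Fin n → Cf n → ℝ := fun k l x =>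
    if k < l then w x ^ 2 / nr (x k - x l) ^ 2 else 0
  have i1 : ∀ k, Integrable (f1 k) := fun k => (hA1 n k w hw.1 hw.2).1
  have b1 : ∀ k, ∫ x, f1 k x ≤ 4 * D k := fun k => (hA1 n k w hw.1 hw.2).2
  have i2 : ∀ k l, Integrable (f2 k l) := by
    intro k l
    by_cases h : k < l
    · simp only [f2, if_pos h]
      exact (hA2 n k l w h.ne hw.1 hw.2).1
    · simp only [f2, if_neg h]
      exact integrable_zero _ _ _
  have b2 : ∀ k l, ∫ x, f2 k l x ≤ 4 * D k := by
    intro k l
    by_cases h : k < l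
    · simp only [f2, if_pos h]
      exact (hA2 n k l w h.ne hw.1 hw.2).2
    · simp only [f2, if_neg h, integral_zero]
      have := hD0 k
      linarith
  let F : Cf n → ℝ := fun x => 2 * (n : ℝ) ^ 2 * (∑ k, ∑ l, f2 k l x) +
    2 * Z ^ 2 * n * ∑ k, f1 k x
  have hpt : ∀ x, ((rep x - Z * att x) * w x) ^ 2 ≤ F x := by
    intro x
    have g1 : (att x * w x) ^ 2 ≤ n * ∑ k, f1 k x := by
      unfold att
      rw [Finset.sum_mul]
      have h := sq_sum_le_card_mul_sum_sq (s := (Finset.univ : Finset (Fin n)))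
        (f := fun k => 1 / nr (x k) * w x)
      rw [Finset.card_univ, Fintype.card_fin] at h
      refine h.trans (le_of_eq ?_)
      congr 1
      apply Finset.sum_congr rfl
      intro k _
      simp only [f1]
      rw [mul_pow, div_pow, one_pow]
      ring
    have g2 : (rep x * w x) ^ 2 ≤ (n : ℝ) ^ 2 * ∑ k, ∑ l, f2 k l x := by
      unfold rep
      rw [Finset.sum_mul]
      have h := sq_sum_le_card_mul_sum_sq (s := (Finset.univ : Finset (Fin n)))
        (f := fun k => (∑ l, if k < l then 1 / nr (x k - x l) else 0) * w x)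
      rw [Finset.card_univ, Fintype.card_fin] at h
      refine h.trans ?_
      rw [pow_two, mul_assoc]
      apply mul_le_mul_of_nonneg_left _ (Nat.cast_nonneg _)
      rw [Finset.mul_sum]
      apply Finset.sum_le_sum
      intro k _
      rw [Finset.sum_mul]
      have h' := sq_sum_le_card_mul_sum_sq (s := (Finset.univ : Finset (Fin n)))
        (f := fun l => (if k < l then 1 / nr (x k - x l) else 0) * w x)
      rw [Finset.card_univ, Fintype.card_fin] at h'
      refine h'.trans (le_of_eq ?_)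
      congr 1
      apply Finset.sum_congr rfl
      intro l _
      simp only [f2]
      by_cases hkl : k < l
      · rw [if_pos hkl, if_pos hkl, mul_pow, div_pow, one_pow]
        ring
      · rw [if_neg hkl, if_neg hkl]
        ring
    have g3 : ((rep x - Z * att x) * w x) ^ 2 ≤
        2 * (rep x * w x) ^ 2 + 2 * Z ^ 2 * (att x * w x) ^ 2 := by
      have e : (rep x - Z * att x) * w x = rep x * w x - Z * (att x * w x) := by ring
      rw [e]
      nlinarith [sq_nonneg (rep x * w x + Z * (att x * w x))]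
    have g4 : 2 * Z ^ 2 * (att x * w x) ^ 2 ≤ 2 * Z ^ 2 * (n * ∑ k, f1 k x) :=
      mul_le_mul_of_nonneg_left g1 (by positivity)
    simp only [F]
    linarith
  have hFi : Integrable F := by
    apply Integrable.add
    · exact (integrable_finsetSum _ fun k _ => integrable_finsetSum _ fun l _ => i2 k l).const_mul _
    · exact (integrable_finsetSum _ fun k _ => i1 k).const_mul _
  have hF0 : ∀ x, 0 ≤ F x := fun x => (sq_nonneg _).trans (hpt x)
  have hFint : ∫ x, F x ≤ apx_C n Z * ∑ k, D k := by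
    have e1 : ∫ x, F x = 2 * (n : ℝ) ^ 2 * (∑ k, ∑ l, ∫ x, f2 k l x) +
        2 * Z ^ 2 * n * ∑ k, ∫ x, f1 k x := by
      simp only [F]
      rw [integral_add
        ((integrable_finsetSum _ fun k _ => integrable_finsetSum _ fun l _ => i2 k l).const_mul _)
        ((integrable_finsetSum _ fun k _ => i1 k).const_mul _), integral_const_mul,
        integral_const_mul, integral_finsetSum _ (fun k _ => i1 k),
        integral_finsetSum _ (fun k _ => integrable_finsetSum _ fun l _ => i2 k l)]
      congr 2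
      apply Finset.sum_congr rfl
      intro k _
      rw [integral_finsetSum _ (fun l _ => i2 k l)]
    rw [e1]
    have e2 : ∑ k, ∑ l, ∫ x, f2 k l x ≤ 4 * n * ∑ k, D k := by
      calc ∑ k, ∑ l, ∫ x, f2 k l x ≤ ∑ k, ∑ _l : Fin n, 4 * D k :=
            Finset.sum_le_sum fun k _ => Finset.sum_le_sum fun l _ => b2 k l
        _ = 4 * n * ∑ k, D k := by
            rw [Finset.mul_sum]
            apply Finset.sum_congr rfl
            intro k _
            rw [Finset.sum_const, Finset.card_univ, Fintype.card_fin, nsmul_eq_mul]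
            ring
    have e3 : ∑ k, ∫ x, f1 k x ≤ 4 * ∑ k, D k := by
      rw [Finset.mul_sum]
      exact Finset.sum_le_sum fun k _ => b1 k
    have e4 : 2 * (n : ℝ) ^ 2 * (∑ k, ∑ l, ∫ x, f2 k l x) ≤
        2 * (n : ℝ) ^ 2 * (4 * n * ∑ k, D k) := mul_le_mul_of_nonneg_left e2 (by positivity)
    have e5 : 2 * Z ^ 2 * n * ∑ k, ∫ x, f1 k x ≤ 2 * Z ^ 2 * n * (4 * ∑ k, D k) :=
      mul_le_mul_of_nonneg_left e3 (by positivity)
    unfold apx_C
    nlinarith
  calc ∫⁻ x, ENNReal.ofReal (((rep x - Z * att x) * w x) ^ 2)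
      ≤ ∫⁻ x, ENNReal.ofReal (F x) := lintegral_mono fun x => ENNReal.ofReal_le_ofReal (hpt x)
    _ = ENNReal.ofReal (∫ x, F x) :=
        (ofReal_integral_eq_lintegral_ofReal hFi (Eventually.of_forall hF0)).symm
    _ ≤ _ := ENNReal.ofReal_le_ofReal hFint

/-- a.e. convergent subsequence -/
lemma apx_subseq {n : ℕ} (v : ℕ → Cf n → ℝ) (φ : Cf n → ℝ) (hv : ∀ j, MemLp (v j) 2)
    (hφ : MemLp φ 2) (h : Tendsto (fun j => ∫ x, (v j x - φ x) ^ 2) atTop (nhds 0)) :
    ∃ ns : ℕ → ℕ, StrictMono ns ∧ ∀ᵐ x, Tendsto (fun i => v (ns i) x) atTop (nhds (φ x)) := by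
  have h1 : Tendsto (fun j => eLpNorm (v j - φ) 2 volume) atTop (nhds 0) := by
    have e : ∀ j, eLpNorm (v j - φ) 2 volume =
        ENNReal.ofReal ((∫ x, (v j x - φ x) ^ 2) ^ ((2 : ℝ)⁻¹)) := by
      intro j
      rw [((hv j).sub hφ).eLpNorm_eq_integral_rpow_norm (by norm_num) (by norm_num)]
      simp only [ENNReal.toReal_ofNat, Pi.sub_apply, Real.norm_eq_abs]
      congr 2
      apply integral_congr_ae
      filter_upwards with x
      rw [show (2 : ℝ) = ((2 : ℕ) : ℝ) by norm_num, Real.rpow_natCast, sq_abs]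
    simp only [e]
    have h2 : Tendsto (fun j => (∫ x, (v j x - φ x) ^ 2) ^ ((2 : ℝ)⁻¹)) atTop (nhds 0) := by
      have h3 := h.rpow_const (p := (2 : ℝ)⁻¹) (Or.inr (by norm_num))
      rwa [Real.zero_rpow (by norm_num)] at h3
    have h4 := ENNReal.tendsto_ofReal h2
    rwa [ENNReal.ofReal_zero] at h4
  exact (tendstoInMeasure_of_tendsto_eLpNorm (by norm_num) (fun j => (hv j).1) hφ.1
    h1).exists_seq_tendsto_ae

/-- the potential term -/
lemma apx_pot (hA1 : ST_HA1) (hA2 : ST_HA2) {n : ℕ} (Z : ℝ) (v : ℕ → Cf n → ℝ) (φ : Cf n → ℝ)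
    (g : Fin n → Fin 3 → Cf n → ℝ) (hv : ∀ j, apx_CS (v j)) (hφ : MemLp φ 2)
    (hg : ∀ k i, MemLp (g k i) 2) (hVφ : MemLp (fun x => (rep x - Z * att x) * φ x) 2)
    (hVv : ∀ j, MemLp (fun x => (rep x - Z * att x) * v j x) 2)
    (h : Tendsto (fun j => ∫ x, (v j x - φ x) ^ 2) atTop (nhds 0))
    (hd : ∀ k i, Tendsto (fun j => ∫ x, (dv k i (v j) x - g k i x) ^ 2) atTop (nhds 0)) (j : ℕ) :
    ∫ x, ((rep x - Z * att x) * (v j x - φ x)) ^ 2 ≤
      2 * apx_C n Z * ∑ k, ∑ i, ∫ x, (dv k i (v j) x - g k i x) ^ 2 := by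
  obtain ⟨ns, hns, hae⟩ := apx_subseq v φ (fun j => (hv j).mem) hφ h
  set B : ℝ := 2 * apx_C n Z * ∑ k, ∑ i, ∫ x, (dv k i (v j) x - g k i x) ^ 2 with hB
  have hB0 : 0 ≤ B := by
    have h1 := apx_C_nonneg n Z
    have h2 : 0 ≤ ∑ k, ∑ i, ∫ x, (dv k i (v j) x - g k i x) ^ 2 :=
      Finset.sum_nonneg fun k _ => Finset.sum_nonneg fun i _ => integral_nonneg fun x => sq_nonneg _
    positivity
  have hVm : Measurable fun x : Cf n => rep x - Z * att x :=
    apx_rep_meas.sub (measurable_const.mul apx_att_meas)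
  let c : ℕ → ℝ := fun m => 2 * apx_C n Z * ∑ k, ∑ i, ∫ x, (dv k i (v m) x - g k i x) ^ 2
  have hc : Tendsto c atTop (nhds 0) := by
    have h1 : Tendsto (fun m => 2 * apx_C n Z * ∑ k, ∑ i, ∫ x, (dv k i (v m) x - g k i x) ^ 2)
        atTop (nhds (2 * apx_C n Z * ∑ _k : Fin n, ∑ _i : Fin 3, (0 : ℝ))) :=
      (tendsto_finsetSum _ fun k _ => tendsto_finsetSum _ fun i _ => hd k i).const_mul _
    simpa using h1
  have hstep : ∀ m, ∫⁻ x, ENNReal.ofReal (((rep x - Z * att x) * (v j x - v m x)) ^ 2) ≤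
      ENNReal.ofReal (B + c m) := by
    intro m
    refine (apx_hardy hA1 hA2 Z ((hv j).sub (hv m))).trans (ENNReal.ofReal_le_ofReal ?_)
    have e1 : ∀ k i x, dv k i (fun x => v j x - v m x) x = dv k i (v j) x - dv k i (v m) x := by
      intro k i x
      unfold dv
      rw [fderiv_fun_sub ((hv j).1.differentiable (by simp) x)
        ((hv m).1.differentiable (by simp) x)]
      rfl
    have m1 : ∀ k i, MemLp (fun x => dv k i (v j) x - g k i x) 2 := fun k i =>
      ((hv j).dv k i).mem.sub (hg k i)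
    have m2 : ∀ k i, MemLp (fun x => dv k i (v m) x - g k i x) 2 := fun k i =>
      ((hv m).dv k i).mem.sub (hg k i)
    have m3 : ∀ k i, MemLp (fun x => dv k i (v j) x - dv k i (v m) x) 2 := fun k i =>
      ((hv j).dv k i).mem.sub ((hv m).dv k i).mem
    have e2 : ∀ k, ∫ x, ∑ i, dv k i (fun x => v j x - v m x) x ^ 2 ≤
        ∑ i, (2 * ∫ x, (dv k i (v j) x - g k i x) ^ 2) +
        ∑ i, (2 * ∫ x, (dv k i (v m) x - g k i x) ^ 2) := by
      intro k
      simp only [e1]
      rw [integral_finsetSum _ fun i _ => (m3 k i).integrable_sq, ← Finset.sum_add_distrib]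
      apply Finset.sum_le_sum
      intro i _
      rw [← integral_const_mul, ← integral_const_mul, ← integral_add
        ((m1 k i).integrable_sq.const_mul 2) ((m2 k i).integrable_sq.const_mul 2)]
      apply integral_mono (m3 k i).integrable_sq
        (((m1 k i).integrable_sq.const_mul 2).add ((m2 k i).integrable_sq.const_mul 2))
      intro x
      simp only [Pi.add_apply]
      nlinarith [sq_nonneg ((dv k i (v j) x - g k i x) + (dv k i (v m) x - g k i x))]
    have h0 := apx_C_nonneg n Z
    calc apx_C n Z * ∑ k, ∫ x, ∑ i, dv k i (fun x => v j x - v m x) x ^ 2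
        ≤ apx_C n Z * ∑ k, (∑ i, (2 * ∫ x, (dv k i (v j) x - g k i x) ^ 2) +
          ∑ i, (2 * ∫ x, (dv k i (v m) x - g k i x) ^ 2)) :=
          mul_le_mul_of_nonneg_left (Finset.sum_le_sum fun k _ => e2 k) h0
      _ = B + c m := by
          simp only [hB, c, Finset.sum_add_distrib, ← Finset.mul_sum]
          ring
  have hfatou : ∫⁻ x, ENNReal.ofReal (((rep x - Z * att x) * (v j x - φ x)) ^ 2) ≤
      ENNReal.ofReal B := by
    calc ∫⁻ x, ENNReal.ofReal (((rep x - Z * att x) * (v j x - φ x)) ^ 2)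
        = ∫⁻ x, liminf (fun m => ENNReal.ofReal
            (((rep x - Z * att x) * (v j x - v (ns m) x)) ^ 2)) atTop := by
          apply lintegral_congr_ae
          filter_upwards [hae] with x hx
          symm
          apply Tendsto.liminf_eq
          apply ENNReal.tendsto_ofReal
          exact ((tendsto_const_nhds.sub hx).const_mul _).pow 2
      _ ≤ liminf (fun m => ∫⁻ x, ENNReal.ofReal
            (((rep x - Z * att x) * (v j x - v (ns m) x)) ^ 2)) atTop := by
          apply lintegral_liminf_le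
          intro m
          exact ((hVm.mul ((hv j).1.continuous.sub (hv (ns m)).1.continuous).measurable).pow_const
            2).ennreal_ofReal
      _ ≤ liminf (fun m => ENNReal.ofReal (B + c (ns m))) atTop := by
          refine liminf_le_liminf (Eventually.of_forall fun m => hstep (ns m)) ?_ ?_ <;>
            isBoundedDefault
      _ = ENNReal.ofReal B := by
          apply Tendsto.liminf_eq
          apply ENNReal.tendsto_ofReal
          have := (hc.comp hns.tendsto_atTop).const_add B
          simpa using this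
  have hmem : MemLp (fun x => (rep x - Z * att x) * (v j x - φ x)) 2 := by
    have e : (fun x : Cf n => (rep x - Z * att x) * (v j x - φ x)) =
        (fun x => (rep x - Z * att x) * v j x) - fun x => (rep x - Z * att x) * φ x := by
      funext x
      simp only [Pi.sub_apply]
      ring
    rw [e]
    exact (hVv j).sub hVφ
  have h5 := ofReal_integral_eq_lintegral_ofReal hmem.integrable_sq
    (Eventually.of_forall fun x => sq_nonneg _)
  rw [← h5] at hfatou
  exact (ENNReal.ofReal_le_ofReal_iff hB0).mp hfatou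

end Pool.Agent.Helper95.PW
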